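import Pool.Agent.W907.SG.Stmts2

set_option autoImplicit false

namespace Pool.Agent.W143.SG.LineP

open Pool.Agent.W907.SG

theorem ev_nil {V : Type} : EvenWord ([] : List V) := fun χ => by simp

theorem ev_append {V : Type} {l m : List V} (hl : EvenWord l) (hm : EvenWord m) : EvenWord (l ++ m) :=
  fun χ => by rw [List.map_append, List.prod_append, hl χ, hm χ, one_mul]

theorem ev_reverse {V : Type} {l : List V} (hl : EvenWord l) : EvenWord l.reverse :=
  fun χ => by
    rw [List.map_reverse, List.prod_reverse_noncomm]
    have : (List.map (fun x : ℤˣ => x⁻¹) (l.map χ)) = l.map χ := by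
      rw [List.map_map]
      refine List.map_congr_left fun v _ => ?_
      exact Int.units_inv_eq_self _
    rw [this, hl χ, inv_one]

theorem ev_conj {V : Type} {l : List V} (v : V) (hl : EvenWord l) : EvenWord (v :: (l ++ [v])) :=
  fun χ => by
    rw [List.map_cons, List.prod_cons, List.map_append, List.prod_append, hl χ]
    simp

theorem ev_comm {V : Type} (u v : V) : EvenWord [u, v, u, v] :=
  fun χ => by
    simp only [List.map_cons, List.map_nil, List.prod_cons, List.prod_nil, mul_one]
    have h1 := Int.units_mul_self (χ u)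
    have h2 := Int.units_mul_self (χ v)
    calc χ u * (χ v * (χ u * χ v)) = (χ u * χ u) * (χ v * χ v) := by ac_rfl
      _ = 1 := by rw [h1, h2, one_mul]

section
variable {p : ℕ} {V N : Type} [AddCommGroup N] [Module (ZMod p) N]

/-- the equivalence given by an involution -/
def se (σ : V → N →ₗ[ZMod p] N) (h : ∀ v m, σ v (σ v m) = m) (v : V) : N ≃ₗ[ZMod p] N :=
  LinearEquiv.ofInvolutive (σ v) (h v)

theorem se_apply (σ : V → N →ₗ[ZMod p] N) (h : ∀ v m, σ v (σ v m) = m) (v : V) (x : N) :
    se σ h v x = σ v x := rfl

theorem se_inv (σ : V → N →ₗ[ZMod p] N) (h : ∀ v m, σ v (σ v m) = m) (v : V) :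
    (se σ h v)⁻¹ = se σ h v := by
  rw [inv_eq_iff_mul_eq_one]
  ext x
  change σ v (σ v x) = x
  exact h v x

theorem prod_apply (σ : V → N →ₗ[ZMod p] N) (h : ∀ v m, σ v (σ v m) = m) (l : List V) (x : N) :
    (l.map (se σ h)).prod x = l.foldr (fun v => σ v) x := by
  induction l with
  | nil => rfl
  | cons v l ih =>
    rw [List.map_cons, List.prod_cons, List.foldr_cons, ← ih]
    rfl

theorem prod_inv (σ : V → N →ₗ[ZMod p] N) (h : ∀ v m, σ v (σ v m) = m) (l : List V) :
    (l.map (se σ h)).prod⁻¹ = (l.reverse.map (se σ h)).prod := by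
  rw [List.prod_inv_reverse, List.map_map, ← List.map_reverse]
  congr 1

/-- the even subgroup -/
def PP (σ : V → N →ₗ[ZMod p] N) (h : ∀ v m, σ v (σ v m) = m) : Subgroup (N ≃ₗ[ZMod p] N) where
  carrier := {g | ∃ l : List V, EvenWord l ∧ g = (l.map (se σ h)).prod}
  mul_mem' := by
    rintro _ _ ⟨l, hl, rfl⟩ ⟨m, hm, rfl⟩
    exact ⟨l ++ m, ev_append hl hm, by rw [List.map_append, List.prod_append]⟩
  one_mem' := ⟨[], ev_nil, by simp⟩
  inv_mem' := by
    rintro _ ⟨l, hl, rfl⟩
    exact ⟨l.reverse, ev_reverse hl, prod_inv σ h l⟩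

theorem pow_apply' (g : N ≃ₗ[ZMod p] N) (n : ℕ) (x : N) : (g ^ n) x = (fun y => g y)^[n] x := by
  induction n generalizing x with
  | zero => rfl
  | succ n ih =>
    rw [pow_succ, Function.iterate_succ_apply]
    change (g ^ n) (g x) = _
    rw [ih]

theorem foldr_conj (σ : V → N →ₗ[ZMod p] N) (l : List V) (v : V) (x : N) :
    (v :: (l ++ [v])).foldr (fun v => σ v) x = σ v (l.foldr (fun v => σ v) (σ v x)) := by
  rw [List.foldr_cons, List.foldr_append]
  rfl

end

theorem line : S_LINEP := by
  intro p hpF V N _ _ _ _ _ σ hp2 h hp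
  classical
  have : Finite N := Module.finite_of_finite (ZMod p)
  have hP : IsPGroup p (PP σ h) := by
    rintro ⟨g, l, hl, rfl⟩
    obtain ⟨k, hk⟩ := hp l hl
    refine ⟨k, ?_⟩
    apply Subtype.ext
    change ((l.map (se σ h)).prod) ^ (p ^ k) = 1
    ext x
    rw [pow_apply']
    have : (fun y => (l.map (se σ h)).prod y) = fun y => l.foldr (fun v => σ v) y := by
      funext y; exact prod_apply σ h l y
    rw [this, hk x]
    rfl
  have hcard : p ∣ Nat.card N := by
    rw [Module.natCard_eq_pow_finrank (K := ZMod p)]
    rw [Nat.card_zmod]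
    exact dvd_pow_self p (Module.finrank_pos (R := ZMod p) (M := N)).ne'
  have h0 : (0 : N) ∈ MulAction.fixedPoints (PP σ h) N := by
    rintro ⟨g, hg⟩
    change g 0 = 0
    exact map_zero g
  obtain ⟨x₀, hx₀, hne⟩ := hP.exists_fixed_point_of_prime_dvd_card_of_fixed_point N hcard h0
  -- the statement for finite sets of generators
  have := Fintype.ofFinite V
  have key : ∀ A : Finset V, ∃ x : N, x ≠ 0 ∧ (∀ l : List V, EvenWord l → l.foldr (fun v => σ v) x = x) ∧
      ∀ v ∈ A, σ v x = x ∨ σ v x = - x := by
    intro A
    induction A using Finset.induction_on with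
    | empty =>
      refine ⟨x₀, hne.symm, fun l hl => ?_, by simp⟩
      have := hx₀ ⟨(l.map (se σ h)).prod, l, hl, rfl⟩
      change (l.map (se σ h)).prod x₀ = x₀ at this
      rw [← prod_apply σ h l]
      exact this
    | insert v A _ ih =>
      obtain ⟨x, hx0, hxP, hxA⟩ := ih
      by_cases hv : x + σ v x = 0
      · refine ⟨x, hx0, hxP, fun u hu => ?_⟩
        rcases Finset.mem_insert.1 hu with rfl | hu
        · right
          exact (neg_eq_of_add_eq_zero_right hv).symm
        · exact hxA u hu
      · refine ⟨x + σ v x, hv, fun l hl => ?_, fun u hu => ?_⟩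
        · have h1 := hxP _ (ev_conj v hl)
          rw [foldr_conj] at h1
          have h2 : l.foldr (fun v => σ v) (σ v x) = σ v x := by
            have := congrArg (σ v) h1
            rwa [h] at this
          rw [← prod_apply σ h l, map_add, prod_apply σ h l, prod_apply σ h l, hxP l hl, h2]
        · rcases Finset.mem_insert.1 hu with rfl | hu
          · left
            rw [map_add, h, add_comm]
          · have h1 := hxP _ (ev_comm u v)
            simp only [List.foldr_cons, List.foldr_nil] at h1
            have h2 : σ v (σ u (σ v x)) = σ u x := by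
              have := congrArg (σ u) h1
              rwa [h] at this
            have h3 : σ u (σ v x) = σ v (σ u x) := by
              have := congrArg (σ v) h2
              rwa [h] at this
            rcases hxA u hu with h4 | h4
            · left
              rw [map_add, h3, h4]
            · right
              rw [map_add, h3, h4, map_neg]
              abel
  obtain ⟨x, hx0, _, hx⟩ := key Finset.univ
  exact ⟨x, hx0, fun v => hx v (Finset.mem_univ v)⟩

end Pool.Agent.W143.SG.LineP
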