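import Pool.Agent.W907.SG.Stmts2
import Pool.Agent.W461.SG.NIL

/-!
# Finite 3-type sets with an action of a right-angled Coxeter group

`S_NILP` of the project SG: given finitely many nontrivial elements of the right-angled Coxeter group `W G`, there is a
finite set with an action of `W G` on which they have no fixed points and on which the even words have 3-power order.
We use operators of nil-Coxeter type on functions on a ball of `W G` with values in `𝔽₃`.
-/

namespace Pool.Agent.W143.SGN

open Pool.Agent.W907.SG
open Pool.Agent.W461.SGN (len liftable simple_mul_self simple_comm th th_simple th_self th_other len_mul_simple Up up_up wp th_even even_reverse)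

variable (p : ℕ) [hpF : Fact p.Prime] {V : Type} (G : SimpleGraph V)

open Classical in
/-- the basic operator -/
noncomputable def op (s : V) : (W G → ZMod p) →ₗ[ZMod p] (W G → ZMod p) where
  toFun f x := (((th G x s : ℤˣ) : ℤ) : ZMod p) * (f x + if Up G x s then f (x * (cox G).simple s) else 0)
  map_add' f g := by
    funext x
    simp only [Pi.add_apply]
    split_ifs <;> ring
  map_smul' c f := by
    funext x
    simp only [Pi.smul_apply, smul_eq_mul, RingHom.id_apply]
    split_ifs <;> ring

open Classical in
theorem op_apply (s : V) (f : W G → ZMod p) (x : W G) :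
    op p G s f x = (((th G x s : ℤˣ) : ℤ) : ZMod p) *
      (f x + if Up G x s then f (x * (cox G).simple s) else 0) := rfl

theorem unit_sq (u : ℤˣ) : (((u : ℤˣ) : ℤ) : ZMod p) * (((u : ℤˣ) : ℤ) : ZMod p) = 1 := by
  rcases Int.units_eq_one_or u with h | h <;> simp [h]

theorem op_op (s : V) : op p G s * op p G s = 1 := by
  classical
  refine LinearMap.ext fun f => funext fun x => ?_
  show op p G s (op p G s f) x = f x
  rw [op_apply, op_apply p G s f x]
  by_cases h : Up G x s
  · rw [if_pos h, if_pos h, op_apply]
    have h2 : ¬ Up G (x * (cox G).simple s) s := by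
      unfold Up at h ⊢
      rw [mul_assoc, simple_mul_self, mul_one]
      omega
    rw [if_neg h2, th_self]
    have := unit_sq p (th G x s)
    push_cast
    linear_combination (f x) * this
  · rw [if_neg h, if_neg h]
    have := unit_sq p (th G x s)
    linear_combination (f x) * this

theorem op_comm (s t : V) (h : G.Adj s t) : op p G s * op p G t = op p G t * op p G s := by
  classical
  have hst : s ≠ t := h.ne
  refine LinearMap.ext fun f => funext fun x => ?_
  show op p G s (op p G t f) x = op p G t (op p G s f) x
  have key : ∀ (s t : V), s ≠ t → op p G s (op p G t f) x =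
      (((th G x s : ℤˣ) : ℤ) : ZMod p) * (((th G x t : ℤˣ) : ℤ) : ZMod p) *
      (f x + (if Up G x s then f (x * (cox G).simple s) else 0) + (if Up G x t then f (x * (cox G).simple t) else 0) +
        (if Up G x s ∧ Up G (x * (cox G).simple s) t then f (x * (cox G).simple s * (cox G).simple t) else 0)) := by
    intro s t hst
    rw [op_apply, op_apply, op_apply, th_other G x t s (Ne.symm hst)]
    by_cases h1 : Up G x s
    · by_cases h2 : Up G (x * (cox G).simple s) t
      · simp only [h1, h2, if_true, and_self]; ring
      · simp only [h1, h2, if_true, if_false, and_false]; ring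
    · simp only [h1, if_false, false_and]; ring
  rw [key s t hst, key t s (Ne.symm hst)]
  have e : x * (cox G).simple s * (cox G).simple t = x * (cox G).simple t * (cox G).simple s := by
    rw [mul_assoc, mul_assoc, simple_comm G s t h]
  rw [e]
  by_cases h5 : Up G x s ∧ Up G (x * (cox G).simple s) t
  · rw [if_pos h5, if_pos ((up_up G x s t h).mp h5)]; ring
  · rw [if_neg h5, if_neg (fun h6 => h5 ((up_up G x s t h).mpr h6))]; ring

/-- functions supported on the ball of radius `k` -/
def NN (k : ℕ) : Submodule (ZMod p) (W G → ZMod p) where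
  carrier := {f | ∀ x, k < len G x → f x = 0}
  add_mem' := by
    intro f g hf hg x hx
    simp [hf x hx, hg x hx]
  zero_mem' := fun x _ => rfl
  smul_mem' := by
    intro c f hf x hx
    simp [hf x hx]

theorem op_mem (k : ℕ) (s : V) (f : W G → ZMod p) (hf : f ∈ NN p G k) : op p G s f ∈ NN p G k := by
  classical
  intro x hx
  rw [op_apply, hf x hx]
  by_cases h : Up G x s
  · rw [if_pos h, hf _ (by unfold Up at h; omega)]; simp
  · rw [if_neg h]; simp

/-- the restricted operator -/
noncomputable def opN (k : ℕ) (s : V) : Module.End (ZMod p) (NN p G k) :=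
  (op p G s).restrict (op_mem p G k s)

theorem opN_coe (k : ℕ) (s : V) (f : NN p G k) : ((opN p G k s f : NN p G k) : W G → ZMod p) = op p G s f := rfl

theorem opN_opN (k : ℕ) (s : V) : opN p G k s * opN p G k s = 1 := by
  refine LinearMap.ext fun f => Subtype.ext ?_
  exact congrArg (fun T : Module.End (ZMod p) (W G → ZMod p) => T f) (op_op p G s)

theorem opN_comm (k : ℕ) (s t : V) (h : G.Adj s t) : opN p G k s * opN p G k t = opN p G k t * opN p G k s := by
  refine LinearMap.ext fun f => Subtype.ext ?_
  exact congrArg (fun T : Module.End (ZMod p) (W G → ZMod p) => T f) (op_comm p G s t h)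

/-- the representation -/
noncomputable def psi (k : ℕ) : W G →* Module.End (ZMod p) (NN p G k) :=
  (cox G).toCoxeterSystem.lift ⟨opN p G k, liftable G _ (opN_opN p G k) (opN_comm p G k)⟩

theorem psi_simple (k : ℕ) (v : V) : psi p G k ((cox G).simple v) = opN p G k v :=
  CoxeterSystem.lift_apply_simple _ _ v

theorem psi_wp (k : ℕ) (l : List V) : psi p G k (wp G l) = (l.map (opN p G k)).prod := by
  unfold wp
  rw [map_list_prod, List.map_map]
  rfl

theorem tri (k : ℕ) (l : List V) : ∀ (f : NN p G k) (x : W G), (∀ z, len G x < len G z → (f : W G → ZMod p) z = 0) →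
    (((l.map (opN p G k)).prod f : NN p G k) : W G → ZMod p) x =
      ((((l.map (th G x)).prod : ℤˣ) : ℤ) : ZMod p) * (f : W G → ZMod p) x := by
  classical
  induction l with
  | nil => intro f x _; simp
  | cons s l ih =>
    intro f x hf
    rw [List.map_cons, List.prod_cons, Module.End.mul_apply, opN_coe, op_apply, ih f x hf]
    have h2 : (if Up G x s then (((l.map (opN p G k)).prod f : NN p G k) : W G → ZMod p) (x * (cox G).simple s) else 0)
        = 0 := by
      split_ifs with h
      · unfold Up at h
        rw [ih f _ (fun z hz => hf z (by omega)), hf _ (by omega), mul_zero]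
      · rfl
    rw [h2, add_zero, List.map_cons, List.prod_cons]
    push_cast
    ring

theorem vanish (k : ℕ) (l : List V) : ∀ (f : NN p G k) (x : W G),
    (∀ z, len G z ≤ len G x + l.length → (f : W G → ZMod p) z = 0) →
    (((l.map (opN p G k)).prod f : NN p G k) : W G → ZMod p) x = 0 := by
  classical
  induction l with
  | nil => intro f x hf; simpa using hf x (by simp)
  | cons s l ih =>
    intro f x hf
    rw [List.map_cons, List.prod_cons, Module.End.mul_apply, opN_coe, op_apply,
      ih f x (fun z hz => hf z (by simp only [List.length_cons]; omega))]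
    have h2 : (if Up G x s then (((l.map (opN p G k)).prod f : NN p G k) : W G → ZMod p) (x * (cox G).simple s) else 0)
        = 0 := by
      split_ifs with h
      · unfold Up at h
        exact ih f _ (fun z hz => hf z (by simp only [List.length_cons]; omega))
      · rfl
    rw [h2]; simp

theorem lead (k : ℕ) (l : List V) : ∀ (f : NN p G k) (x : W G), len G (x * wp G l) = len G x + l.length →
    (∀ z, len G z < len G x + l.length → (f : W G → ZMod p) z = 0) →
    ∃ u : ℤˣ, (((l.map (opN p G k)).prod f : NN p G k) : W G → ZMod p) x =
      (((u : ℤˣ) : ℤ) : ZMod p) * (f : W G → ZMod p) (x * wp G l) := by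
  classical
  induction l with
  | nil => intro f x _ _; exact ⟨1, by simp [wp]⟩
  | cons s l ih =>
    intro f x hx hf
    have hw : wp G (s :: l) = (cox G).simple s * wp G l := by simp [wp]
    rw [hw, ← mul_assoc] at hx ⊢
    have h1 : len G (x * (cox G).simple s * wp G l) ≤ len G (x * (cox G).simple s) + l.length := by
      have a := (cox G).toCoxeterSystem.length_mul_le (x * (cox G).simple s) (wp G l)
      have b := (cox G).toCoxeterSystem.length_wordProd_le l
      have c : (cox G).toCoxeterSystem.wordProd l = wp G l := rfl
      rw [c] at b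
      unfold len
      omega
    have hup : Up G x s := by
      have := len_mul_simple G x s
      unfold Up
      simp only [List.length_cons] at hx
      omega
    have hup' := hup
    unfold Up at hup'
    obtain ⟨u, hu⟩ := ih f (x * (cox G).simple s) (by rw [hx, hup', List.length_cons]; omega)
      (fun z hz => hf z (by rw [hup'] at hz; simp only [List.length_cons]; omega))
    refine ⟨th G x s * u, ?_⟩
    rw [List.map_cons, List.prod_cons, Module.End.mul_apply, opN_coe, op_apply, if_pos hup, hu,
      vanish p G k l f x (fun z hz => hf z (by simp only [List.length_cons]; omega))]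
    push_cast
    ring

theorem psi_ne (k : ℕ) (w : W G) (hw : w ≠ 1) (hk : len G w ≤ k) : psi p G k w ≠ 1 := by
  classical
  intro h
  obtain ⟨l, hl, hwl⟩ := (cox G).toCoxeterSystem.exists_isReduced w
  have e : w = wp G l := hwl
  have hlen : len G w = l.length := by rw [e]; exact hl
  let f : NN p G k := ⟨Pi.single w 1, by
    intro x hx
    rw [Pi.single_apply, if_neg]
    rintro rfl
    omega⟩
  have hf : ∀ z, (f : W G → ZMod p) z = if z = w then 1 else 0 := fun z => by
    show (Pi.single w 1 : W G → ZMod p) z = _
    rw [Pi.single_apply]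
  obtain ⟨u, hu⟩ := lead p G k l f 1 (by
      have : len G 1 = 0 := (cox G).toCoxeterSystem.length_one
      rw [one_mul, ← e, hlen, this, zero_add]) (by
    intro z hz
    rw [hf, if_neg]
    rintro rfl
    have : len G 1 = 0 := (cox G).toCoxeterSystem.length_one
    rw [this, hlen] at hz
    omega)
  rw [← psi_wp, ← e, h, one_mul, hf w, if_pos rfl] at hu
  rw [show ((1 : Module.End (ZMod p) (NN p G k)) f : NN p G k) = f from rfl, hf, if_neg (Ne.symm hw)] at hu
  rcases Int.units_eq_one_or u with h | h <;> subst h <;> revert hu <;> simp

theorem finite_NN [Finite V] (k : ℕ) : Finite (NN p G k) := by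
  classical
  have hB : {x : W G | len G x ≤ k}.Finite := by
    refine ((List.finite_length_le V k).image (wp G)).subset ?_
    intro x hx
    obtain ⟨l, hl, hwl⟩ := (cox G).toCoxeterSystem.exists_isReduced x
    refine ⟨l, ?_, hwl.symm⟩
    have : len G x = l.length := by rw [hwl]; exact hl
    simp only [Set.mem_ofPred_eq] at hx ⊢
    omega
  have := hB.to_subtype
  refine Finite.of_injective (fun (f : NN p G k) (x : {x : W G | len G x ≤ k}) => (f : W G → ZMod p) x) ?_
  intro f g h
  refine Subtype.ext (funext fun x => ?_)
  by_cases hx : len G x ≤ k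
  · exact congrFun h ⟨x, hx⟩
  · rw [f.2 x (not_le.mp hx), g.2 x (not_le.mp hx)]

theorem psi_pow (k : ℕ) (l : List V) (hl : EvenWord l) : (psi p G k (wp G l)) ^ (p ^ (k + 1)) = 1 := by
  classical
  set T : Module.End (ZMod p) (NN p G k) := psi p G k (wp G l) with hT
  set n : Module.End (ZMod p) (NN p G k) := T - 1 with hn
  have h1 : ∀ (f : NN p G k) (x : W G), (∀ z, len G x < len G z → (f : W G → ZMod p) z = 0) →
      ((n f : NN p G k) : W G → ZMod p) x = 0 := by
    intro f x hf
    have := tri p G k l f x hf
    rw [hl (th G x)] at this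
    rw [← psi_wp, ← hT] at this
    show ((T f : NN p G k) : W G → ZMod p) x - (f : W G → ZMod p) x = 0
    rw [this]; simp
  have h2 : ∀ (j : ℕ) (f : NN p G k) (x : W G), k < len G x + j → (((n ^ j) f : NN p G k) : W G → ZMod p) x = 0 := by
    intro j
    induction j with
    | zero => intro f x hx; exact f.2 x (by omega)
    | succ j ih =>
      intro f x hx
      rw [pow_succ', Module.End.mul_apply]
      exact h1 _ x (fun z hz => ih f z (by omega))
  have h3 : n ^ (k + 1) = 0 := by
    refine LinearMap.ext fun f => Subtype.ext (funext fun x => ?_)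
    exact h2 (k + 1) f x (by omega)
  have h4 : n ^ (p ^ (k + 1)) = 0 := by
    have : k + 1 ≤ p ^ (k + 1) := (Nat.lt_pow_self hpF.out.one_lt).le
    exact pow_eq_zero_of_le this h3
  have : Nontrivial (NN p G k) := by
    refine ⟨⟨⟨Pi.single 1 1, ?_⟩, 0, ?_⟩⟩
    · intro x hx
      rw [Pi.single_apply, if_neg]
      rintro rfl
      have : len G 1 = 0 := (cox G).toCoxeterSystem.length_one
      omega
    · intro h
      have := congrFun (congrArg Subtype.val h) 1
      simp at this
  have : CharP (Module.End (ZMod p) (NN p G k)) p :=
    charP_of_injective_algebraMap (algebraMap (ZMod p) (Module.End (ZMod p) (NN p G k))).injective p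
  have h5 : T = n + 1 := by rw [hn]; abel
  rw [h5, add_pow_char_pow_of_commute _ _ (Commute.one_right n), h4, one_pow, zero_add]

theorem nil : S_NILP := by
  classical
  intro p hpF V _ G E hp2 hE
  let k : ℕ := E.sup (len G)
  have := finite_NN p G k
  have : Finite (Module.End (ZMod p) (NN p G k)) :=
    Finite.of_injective (fun (T : Module.End (ZMod p) (NN p G k)) => (T : NN p G k → NN p G k)) DFunLike.coe_injective
  let R := (Module.End (ZMod p) (NN p G k))ˣ
  let Y := R × (V → ℤˣ)
  have : Finite Y := inferInstance
  let φ : W G →* Y := (MonoidHom.toHomUnits (psi p G k)).prod (th G)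
  have hφ1 : ∀ w, ((φ w).1 : Module.End (ZMod p) (NN p G k)) = psi p G k w := fun w => rfl
  have hφ2 : ∀ w, (φ w).2 = th G w := fun w => rfl
  have hfold : ∀ (l : List V) (y : Y), l.foldr (fun v (y : Y) => y * φ ((cox G).simple v)) y =
      y * φ (wp G l.reverse) := by
    intro l
    induction l with
    | nil => intro y; simp [wp]
    | cons s l ih =>
      intro y
      have e : wp G (l.reverse ++ [s]) = wp G l.reverse * (cox G).simple s := by simp [wp]
      rw [List.foldr_cons, ih, List.reverse_cons, e, map_mul, mul_assoc]
  refine ⟨Y, Fintype.ofFinite Y, ⟨1⟩, ⟨fun v y => y * φ ((cox G).simple v), ?_, ?_, fun v y => decide (y.2 v = 1),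
    ?_, ?_, ?_⟩, fun y w => y * φ w, ?_, ?_, ?_, ?_⟩
  · intro v x
    rw [mul_assoc, ← map_mul, simple_mul_self, map_one, mul_one]
  · intro u v h x
    rw [mul_assoc, mul_assoc, ← map_mul, ← map_mul, simple_comm G u v h]
  · intro v x
    have : (x * φ ((cox G).simple v)).2 v = - x.2 v := by
      rw [Prod.snd_mul, Pi.mul_apply, hφ2, th_simple]; simp
    rw [this]
    rcases Int.units_eq_one_or (x.2 v) with h | h <;> simp [h]
  · intro u v h x
    have : (x * φ ((cox G).simple v)).2 u = x.2 u := by
      rw [Prod.snd_mul, Pi.mul_apply, hφ2, th_simple]; simp [h]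
    rw [this]
  · intro l hl
    refine ⟨k + 1, ?_⟩
    have he := even_reverse l hl
    have h1 : φ (wp G l.reverse) ^ (p ^ (k + 1)) = 1 := by
      refine Prod.ext ?_ ?_
      · rw [Prod.pow_fst]
        refine Units.ext ?_
        rw [Units.val_pow_eq_pow_val, hφ1, psi_pow p G k _ he]; rfl
      · rw [Prod.pow_snd, hφ2, th_even G _ he, one_pow]; rfl
    have h2 : ∀ (m : ℕ) (x : Y), (fun y => l.foldr (fun v (y : Y) => y * φ ((cox G).simple v)) y)^[m] x =
        x * φ (wp G l.reverse) ^ m := by
      intro m
      induction m with
      | zero => intro x; simp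
      | succ m ih =>
        intro x
        rw [Function.iterate_succ_apply', ih, hfold, mul_assoc, ← pow_succ]
    intro x
    rw [h2, h1, mul_one]
  · intro y; simp
  · intro y g h; simp only [map_mul, mul_assoc]
  · intro y v; rfl
  · intro g hg y h
    have h1 : φ g = 1 := by
      have : y * φ g = y * 1 := by rw [mul_one]; exact h
      exact mul_left_cancel this
    refine psi_ne p G k g (fun e => hE (e ▸ hg)) (Finset.le_sup (f := len G) hg) ?_
    rw [← hφ1, h1]; rfl

end Pool.Agent.W143.SGN
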