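import Pool.Agent.W143.SG.LineP
import Pool.Agent.W143.SG.MLP
import Pool.Agent.W143.SG.NILP

/-! Project SG2: `S_LINEP`, `S_MLP` (from `S_SUB`), `S_NILP` for all odd primes. -/

namespace Pool.Agent.W143.SG.P

open Pool.Agent.W907.SG

theorem linep : S_LINEP := Pool.Agent.W143.SG.LineP.line

theorem mlp (hS : S_SUB) : S_MLP := Pool.Agent.W143.SG.MLP.main hS linep

theorem nilp : S_NILP := Pool.Agent.W143.SGN.nil

theorem all (hS : S_SUB) : S_LINEP ∧ S_MLP ∧ S_NILP := ⟨linep, mlp hS, nilp⟩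

end Pool.Agent.W143.SG.P
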